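import Pool.Agent.W4.QD.Stms

/-!
Project QD (owner helper4), part CRV: the number of points of bounded size on the curve.
-/

set_option autoImplicit false

namespace Pool.Agent.W338.QD

open NumberField Finset Pool.Agent.W4.QD

/-- representatives of a symmetric relation -/
theorem exists_reps {α : Type} [DecidableEq α] (R : α → α → Prop) (s : Finset α)
    (hs : ∀ x ∈ s, ∀ y ∈ s, R x y → R y x) :
    ∃ r ⊆ s, (∀ x ∈ r, ∀ y ∈ r, R x y → x = y) ∧ ∀ x ∈ s, ∃ y ∈ r, x = y ∨ R x y := by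
  classical
  induction s using Finset.induction_on with
  | empty => exact ⟨∅, subset_rfl, by simp, by simp⟩
  | insert x s hx ih =>
    obtain ⟨r, hr, h1, h2⟩ := ih fun a ha b hb =>
      hs a (mem_insert_of_mem ha) b (mem_insert_of_mem hb)
    by_cases hex : ∃ y ∈ r, R x y
    · refine ⟨r, hr.trans (subset_insert _ _), h1, fun z hz => ?_⟩
      rw [mem_insert] at hz
      rcases hz with rfl | hz
      · obtain ⟨y, hy, hxy⟩ := hex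
        exact ⟨y, hy, Or.inr hxy⟩
      · exact h2 z hz
    · push Not at hex
      refine ⟨insert x r, insert_subset_insert _ hr, ?_, fun z hz => ?_⟩
      · intro a ha b hb hab
        rw [mem_insert] at ha hb
        rcases ha with rfl | ha <;> rcases hb with rfl | hb
        · rfl
        · exact absurd hab (hex b hb)
        · exact absurd (hs a (mem_insert_of_mem (hr ha)) b (mem_insert_self _ _) hab)
            (hex a ha)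
        · exact h1 a ha b hb hab
      · rw [mem_insert] at hz
        rcases hz with rfl | hz
        · exact ⟨z, mem_insert_self _ _, Or.inl rfl⟩
        · obtain ⟨y, hy, h⟩ := h2 z hz
          exact ⟨y, mem_insert_of_mem hy, h⟩

section
variable {K : Type} [Field K] [NumberField K]

theorem norm_le {δ : 𝓞 K} {B : ℝ} (h : ∀ σ : K →+* ℂ, ‖σ (δ : K)‖ ≤ B) :
    |((Algebra.norm ℤ δ : ℤ) : ℝ)| ≤ B ^ Module.finrank ℚ K := by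
  have h1 : ((Algebra.norm ℤ δ : ℤ) : ℂ) = ∏ σ : K →ₐ[ℚ] ℂ, σ (δ : K) := by
    rw [← Algebra.norm_eq_prod_embeddings ℚ ℂ (δ : K), ← Algebra.coe_norm_int]
    simp
  have h2 : |((Algebra.norm ℤ δ : ℤ) : ℝ)| = ‖((Algebra.norm ℤ δ : ℤ) : ℂ)‖ := by
    rw [Complex.norm_intCast]
  rw [h2, h1, norm_prod]
  calc ∏ σ : K →ₐ[ℚ] ℂ, ‖σ (δ : K)‖ ≤ ∏ _σ : K →ₐ[ℚ] ℂ, B :=
        prod_le_prod (fun _ _ => norm_nonneg _) fun σ _ => h σ.toRingHom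
    _ = _ := by rw [prod_const, card_univ, AlgHom.card]

theorem norm_ne {δ : 𝓞 K} (h : δ ≠ 0) : Algebra.norm ℤ δ ≠ 0 := by
  rwa [Ne, Algebra.norm_eq_zero_iff]

theorem finrank_pos' : 0 < Module.finrank ℚ K := Module.finrank_pos

theorem dvd_norm {p : ℕ} {δ : 𝓞 K} (h : (p : 𝓞 K) ∣ δ) : (p : ℤ) ∣ Algebra.norm ℤ δ := by
  obtain ⟨x, rfl⟩ := h
  have h1 : Algebra.norm ℤ (p : 𝓞 K) = (p : ℤ) ^ Module.finrank ℤ (𝓞 K) := by
    have := Algebra.norm_algebraMap (S := 𝓞 K) (p : ℤ)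
    rwa [map_natCast] at this
  rw [map_mul, h1]
  refine Dvd.dvd.mul_right (dvd_pow_self _ ?_) _
  rw [RingOfIntegers.rank]
  exact finrank_pos'.ne'

/-- projective congruence -/
def Rl (p : ℕ) (δ δ' : 𝓞 K) : Prop := ∃ μ : ℤ, (p : 𝓞 K) ∣ δ - μ * δ'

theorem Rl_mu {p : ℕ} {δ δ' : 𝓞 K} (h : ¬ (p : ℤ) ∣ Algebra.norm ℤ δ) {μ : ℤ}
    (hμ : (p : 𝓞 K) ∣ δ - μ * δ') : ¬ (p : ℤ) ∣ μ := by
  rintro ⟨c, rfl⟩
  apply h
  apply dvd_norm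
  have h1 : (p : 𝓞 K) ∣ ((p * c : ℤ) : 𝓞 K) * δ' := by
    push_cast
    rw [mul_assoc]
    exact dvd_mul_right _ _
  have := dvd_add hμ h1
  rwa [sub_add_cancel] at this

theorem Rl_symm {p : ℕ} (hp : p.Prime) {δ δ' : 𝓞 K} (h : ¬ (p : ℤ) ∣ Algebra.norm ℤ δ)
    (hR : Rl p δ δ') : Rl p δ' δ := by
  obtain ⟨μ, hμ⟩ := hR
  have h1 := Rl_mu h hμ
  have h2 : IsCoprime (p : ℤ) μ :=
    (Prime.coprime_iff_not_dvd (Nat.prime_iff_prime_int.1 hp)).2 h1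
  obtain ⟨a, b, hab⟩ := h2
  refine ⟨b, ?_⟩
  have e : δ' - (b : 𝓞 K) * δ = (p : 𝓞 K) * (a * δ') - b * (δ - μ * δ') := by
    have h3 : (a : 𝓞 K) * p + b * μ = 1 := by exact_mod_cast congrArg (Int.cast : ℤ → 𝓞 K) hab
    linear_combination (-δ') * h3
  rw [e]
  exact dvd_sub (dvd_mul_right _ _) (Dvd.dvd.mul_left hμ _)

theorem Rl_trans {p : ℕ} {δ δ' δ'' : 𝓞 K} (h1 : Rl p δ δ') (h2 : Rl p δ' δ'') :
    Rl p δ δ'' := by
  obtain ⟨μ, hμ⟩ := h1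
  obtain ⟨ν, hν⟩ := h2
  refine ⟨μ * ν, ?_⟩
  have e : δ - ((μ * ν : ℤ) : 𝓞 K) * δ'' = (δ - μ * δ') + μ * (δ' - ν * δ'') := by
    push_cast
    ring
  rw [e]
  exact dvd_add hμ (Dvd.dvd.mul_left hν _)

theorem l_mul (f : 𝓞 K →+ ℤ) (a : ℤ) (δ : 𝓞 K) : f ((a : 𝓞 K) * δ) = a * f δ := by
  rw [← zsmul_eq_mul, map_zsmul, smul_eq_mul]

/-- primitive elements -/
def Prim (ℓ : Fin (Module.finrank ℚ K) → (𝓞 K →+ ℤ)) (δ : 𝓞 K) : Prop :=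
  ∀ m : ℤ, (∀ j, m ∣ ℓ j δ) → IsUnit m

theorem prim_eq {ℓ : Fin (Module.finrank ℚ K) → (𝓞 K →+ ℤ)} {δ δ' : 𝓞 K} (h : Prim ℓ δ)
    (h' : Prim ℓ δ') {a b : ℤ} (ha : a ≠ 0) (hab : (a : 𝓞 K) * δ = b * δ') :
    δ = δ' ∨ δ = -δ' := by
  have hg : 0 < Int.gcd a b := Int.gcd_pos_of_ne_zero_left b ha
  obtain ⟨a', b', hc, ha', hb'⟩ := Int.exists_gcd_one hg
  obtain ⟨g, hgd⟩ : ∃ g : ℕ, g = Int.gcd a b := ⟨_, rfl⟩
  rw [← hgd] at ha' hb' hg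
  have h1 : (a' : 𝓞 K) * δ = b' * δ' := by
    rw [ha', hb'] at hab
    push_cast at hab
    have hg0 : (g : 𝓞 K) ≠ 0 := by exact_mod_cast hg.ne'
    apply mul_left_cancel₀ hg0
    linear_combination hab
  have hcop : IsCoprime a' b' := Int.isCoprime_iff_gcd_eq_one.2 hc
  have h2 : ∀ j, a' * ℓ j δ = b' * ℓ j δ' := fun j => by rw [← l_mul, h1, l_mul]
  have h3 : IsUnit a' := h' a' fun j => hcop.dvd_of_dvd_mul_left (Dvd.intro _ (h2 j))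
  have h4 : IsUnit b' := h b' fun j => hcop.symm.dvd_of_dvd_mul_left (Dvd.intro _ (h2 j).symm)
  rcases Int.isUnit_iff.1 h3 with h5 | h5 <;> rcases Int.isUnit_iff.1 h4 with h6 | h6 <;>
    rw [h5, h6] at h1 <;> push_cast at h1
  · left; linear_combination h1
  · right; linear_combination h1
  · right; linear_combination -h1
  · left; linear_combination -h1

theorem det_zero {ℓ : Fin (Module.finrank ℚ K) → (𝓞 K →+ ℤ)}
    (hℓ : ∀ f : 𝓞 K →+ ℤ, ∃ c : Fin (Module.finrank ℚ K) → ℤ, ∀ δ, f δ = ∑ j, c j * ℓ j δ)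
    (δ : Fin 3 → 𝓞 K)
    (h : ∀ r : Fin 3 → Fin (Module.finrank ℚ K),
      Matrix.det (Matrix.of fun a b => ℓ (r a) (δ b)) = 0) (f : Fin 3 → (𝓞 K →+ ℤ)) :
    Matrix.det (Matrix.of fun a b => f a (δ b)) = 0 := by
  choose c hc using fun a => hℓ (f a)
  have h1 : (Matrix.of fun a b => f a (δ b) : Matrix (Fin 3) (Fin 3) ℤ) =
      fun a => ∑ j, c a j • (fun b => ℓ j (δ b)) := by
    funext a b
    rw [Matrix.of_apply, hc, Finset.sum_apply]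
    rfl
  rw [h1]
  show (Matrix.detRowAlternating : (Fin 3 → ℤ) [⋀^Fin 3]→ₗ[ℤ] ℤ).toMultilinearMap
    (fun a => ∑ j, c a j • (fun b => ℓ j (δ b))) = 0
  rw [MultilinearMap.map_sum]
  refine sum_eq_zero fun r _ => ?_
  rw [MultilinearMap.map_smul_univ]
  have h2 := h r
  have h3 : (Matrix.detRowAlternating : (Fin 3 → ℤ) [⋀^Fin 3]→ₗ[ℤ] ℤ).toMultilinearMap
      (fun a => fun b => ℓ (r a) (δ b)) = 0 := h2
  rw [h3, smul_zero]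

theorem det_small {A : Matrix (Fin 3) (Fin 3) ℤ} {a p : ℕ} (h : ∀ i j, |A i j| ≤ (a : ℤ))
    (hp : 2 * a < p) (hd : (p : ℤ) ^ 3 ∣ A.det) : A.det = 0 := by
  have h1 := Matrix.det_le (abv := (AbsoluteValue.abs : AbsoluteValue ℤ ℤ)) (A := A)
    (x := (a : ℤ)) h
  refine Int.eq_zero_of_abs_lt_dvd hd ?_
  have h2 : |A.det| ≤ 6 * (a : ℤ) ^ 3 := by
    simpa [Nat.factorial] using h1
  have h3 : (2 * a + 1) ^ 3 ≤ p ^ 3 := Nat.pow_le_pow_left hp 3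
  have h4 : 6 * a ^ 3 < (2 * a + 1) ^ 3 := by nlinarith [Nat.zero_le (a ^ 3), Nat.zero_le (a ^ 2)]
  have h5 : (6 : ℤ) * (a : ℤ) ^ 3 < (p : ℤ) ^ 3 := by exact_mod_cast h4.trans_le h3
  exact h2.trans_lt h5

/-- one class -/
theorem card_class (hDET : S_DET) (hRANK : S_RANK) {θ : 𝓞 K} {i : ℕ} (hθ : Gen θ)
    (hi : IdxG θ i) (hd : 3 ≤ Module.finrank ℚ K) {ℓ : Fin (Module.finrank ℚ K) → (𝓞 K →+ ℤ)}
    (hℓ : ∀ f : 𝓞 K →+ ℤ, ∃ c : Fin (Module.finrank ℚ K) → ℤ, ∀ δ, f δ = ∑ j, c j * ℓ j δ)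
    {τ : 𝓞 K} (hτ : τ ≠ 0) {k p a : ℕ} (hk : 2 ≤ k) (hp : p.Prime) (hpi : ¬ p ∣ i)
    (hpk : ¬ p ∣ k) (hpτ : ¬ (p : ℤ) ∣ Algebra.norm ℤ τ) (hpa : 2 * a < p)
    (t : Finset (𝓞 K)) (ρ : 𝓞 K)
    (ht : ∀ δ ∈ t, δ ≠ 0 ∧ OnC θ τ k δ ∧ Prim ℓ δ ∧ ¬ (p : ℤ) ∣ Algebra.norm ℤ δ ∧
      (∀ j, |ℓ j δ| ≤ (a : ℤ)) ∧ Rl p δ ρ) : t.card ≤ 2 * k := by
  classical
  obtain ⟨r, hr, h1, h2⟩ := exists_reps
    (fun δ δ' : 𝓞 K => ∃ a b : ℤ, a ≠ 0 ∧ b ≠ 0 ∧ (a : 𝓞 K) * δ = b * δ') t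
    (fun x _ y _ ⟨a, b, ha, hb, hab⟩ => ⟨b, a, hb, ha, hab.symm⟩)
  have hrk : r.card ≤ k := by
    refine hRANK K θ hθ hd τ k hk hτ r (fun δ hδ => ⟨(ht δ (hr hδ)).1, (ht δ (hr hδ)).2.1⟩) ?_ ?_
    · intro δ hδ δ' hδ' a b ha hab
      refine h1 δ hδ δ' hδ' ⟨a, b, ha, fun hb => ?_, hab⟩
      rw [hb, Int.cast_zero, zero_mul, mul_eq_zero] at hab
      rcases hab with h | h
      · exact ha (by exact_mod_cast h)
      · exact (ht δ (hr hδ)).1 h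
    · intro δ hδ f
      refine det_zero hℓ δ (fun q => ?_) f
      refine det_small (a := a) (p := p) (fun x y => ?_) hpa ?_
      · rw [Matrix.of_apply]
        exact (ht _ (hr (hδ y))).2.2.2.2.1 _
      · refine hDET K θ i hθ hi hd τ k p (by omega) hp hpi hpk hpτ δ
          (fun x => (ht _ (hr (hδ x))).2.1) (fun x => (ht _ (hr (hδ x))).2.2.2.1)
          (fun x => ?_) (fun x => ℓ (q x))
        have h3 := (ht _ (hr (hδ x))).2.2.2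
        have h4 := (ht _ (hr (hδ 0))).2.2.2
        obtain ⟨μ, hμ⟩ := Rl_trans h3.2.2 (Rl_symm hp h4.1 h4.2.2)
        exact ⟨μ, Rl_mu h3.1 hμ, hμ⟩
  have hsub : t ⊆ r ∪ r.image (fun δ => -δ) := by
    intro δ hδ
    obtain ⟨δ', hδ', h⟩ := h2 δ hδ
    rcases h with h | ⟨a, b, ha, _, hab⟩
    · exact mem_union_left _ (h ▸ hδ')
    · rcases prim_eq (ht δ hδ).2.2.1 (ht δ' (hr hδ')).2.2.1 ha hab with h | h
      · exact mem_union_left _ (h ▸ hδ')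
      · exact mem_union_right _ (mem_image.2 ⟨δ', hδ', h.symm⟩)
  calc t.card ≤ (r ∪ r.image (fun δ => -δ)).card := card_le_card hsub
    _ ≤ r.card + (r.image (fun δ => -δ)).card := card_union_le _ _
    _ ≤ r.card + r.card := Nat.add_le_add_left card_image_le _
    _ ≤ 2 * k := by omega

/-- one prime -/
theorem card_prime (hDET : S_DET) (hRANK : S_RANK) {θ : 𝓞 K} {i : ℕ} (hθ : Gen θ)
    (hi : IdxG θ i) (hd : 3 ≤ Module.finrank ℚ K) {ℓ : Fin (Module.finrank ℚ K) → (𝓞 K →+ ℤ)}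
    (hℓ : ∀ f : 𝓞 K →+ ℤ, ∃ c : Fin (Module.finrank ℚ K) → ℤ, ∀ δ, f δ = ∑ j, c j * ℓ j δ)
    {τ : 𝓞 K} (hτ : τ ≠ 0) {k p a : ℕ} (hk : 2 ≤ k) (hp : p.Prime) (hpi : ¬ p ∣ i)
    (hpk : ¬ p ∣ k) (hpτ : ¬ (p : ℤ) ∣ Algebra.norm ℤ τ) (hpa : 2 * a < p)
    (hcl : ∀ s : Finset (𝓞 K), (∀ δ ∈ s, OnC θ τ k δ ∧ ¬ (p : ℤ) ∣ Algebra.norm ℤ δ) →
      (∀ δ ∈ s, ∀ δ' ∈ s, ∀ μ : ℤ, (p : 𝓞 K) ∣ δ - μ * δ' → δ = δ') →
      s.card ≤ 2 * k ^ Module.finrank ℚ K * p)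
    (s : Finset (𝓞 K))
    (hs : ∀ δ ∈ s, δ ≠ 0 ∧ OnC θ τ k δ ∧ Prim ℓ δ ∧ ¬ (p : ℤ) ∣ Algebra.norm ℤ δ ∧
      (∀ j, |ℓ j δ| ≤ (a : ℤ))) : s.card ≤ 2 * k ^ Module.finrank ℚ K * p * (2 * k) := by
  classical
  obtain ⟨r, hr, h1, h2⟩ := exists_reps (Rl p) s
    (fun x hx y _ h => Rl_symm hp (hs x hx).2.2.2.1 h)
  have hrc := hcl r (fun δ hδ => ⟨(hs δ (hr hδ)).2.1, (hs δ (hr hδ)).2.2.2.1⟩)
    (fun δ hδ δ' hδ' μ hμ => h1 δ hδ δ' hδ' ⟨μ, hμ⟩)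
  have hsub : s ⊆ r.biUnion (fun ρ => s.filter (fun δ => Rl p δ ρ)) := by
    intro δ hδ
    obtain ⟨ρ, hρ, h⟩ := h2 δ hδ
    refine mem_biUnion.2 ⟨ρ, hρ, mem_filter.2 ⟨hδ, ?_⟩⟩
    rcases h with rfl | h
    · exact ⟨1, by simp⟩
    · exact h
  calc s.card ≤ _ := card_le_card hsub
    _ ≤ r.card * (2 * k) := card_biUnion_le_card_mul _ _ _ fun ρ _ =>
        card_class hDET hRANK hθ hi hd hℓ hτ hk hp hpi hpk hpτ hpa _ ρ fun δ hδ => by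
          obtain ⟨h3, h4⟩ := mem_filter.1 hδ
          obtain ⟨k1, k2, k3, k4, k5⟩ := hs δ h3
          exact ⟨k1, k2, k3, k4, k5, h4⟩
    _ ≤ _ := Nat.mul_le_mul_right _ hrc

/-- a prime not dividing the norm -/
theorem exists_prime {δ : 𝓞 K} (hδ : δ ≠ 0) {B : ℝ} (hB : 1 ≤ B)
    (h : ∀ σ : K →+* ℂ, ‖σ (δ : K)‖ ≤ B) (P : Finset ℕ)
    (hP : P.card = Module.finrank ℚ K + 1) (hPp : ∀ p ∈ P, p.Prime ∧ B < (p : ℝ)) :
    ∃ p ∈ P, ¬ (p : ℤ) ∣ Algebra.norm ℤ δ := by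
  by_contra hn
  push Not at hn
  have h1 : ∏ p ∈ P, p ∣ (Algebra.norm ℤ δ).natAbs :=
    Finset.prod_primes_dvd _ (fun p hp => (hPp p hp).1.prime) fun p hp => by
      rw [← Int.natCast_dvd]
      exact hn p hp
  have h2 := Nat.le_of_dvd (Int.natAbs_pos.2 (norm_ne hδ)) h1
  have h3 : (((Algebra.norm ℤ δ).natAbs : ℕ) : ℝ) ≤ B ^ Module.finrank ℚ K := by
    rw [Nat.cast_natAbs, Int.cast_abs]
    exact norm_le h
  have h4 : B ^ (Module.finrank ℚ K + 1) < ((∏ p ∈ P, p : ℕ) : ℝ) := by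
    push_cast
    rw [← hP, ← prod_const]
    refine prod_lt_prod_of_nonempty (fun _ _ => by linarith) (fun p hp => (hPp p hp).2) ?_
    rw [← card_pos, hP]
    omega
  have h5 : B ^ Module.finrank ℚ K ≤ B ^ (Module.finrank ℚ K + 1) :=
    pow_le_pow_right₀ hB (Nat.le_succ _)
  have h6 : ((∏ p ∈ P, p : ℕ) : ℝ) ≤ (((Algebra.norm ℤ δ).natAbs : ℕ) : ℝ) := by
    exact_mod_cast h2
  linarith

/-- primitive points -/
theorem step1 (hDET : S_DET) (hRANK : S_RANK) (hPRM : S_PRM) (hCLASS : S_CLASS) {θ : 𝓞 K}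
    {i : ℕ} (hθ : Gen θ)
    (hi : IdxG θ i) (hd : 3 ≤ Module.finrank ℚ K) {ℓ : Fin (Module.finrank ℚ K) → (𝓞 K →+ ℤ)}
    (hℓ : ∀ f : 𝓞 K →+ ℤ, ∃ c : Fin (Module.finrank ℚ K) → ℤ, ∀ δ, f δ = ∑ j, c j * ℓ j δ)
    {C1 : ℝ} (hC1 : 1 ≤ C1) (hco : ∀ (δ : 𝓞 K) (B : ℝ), 0 ≤ B →
      (∀ σ : K →+* ℂ, ‖σ (δ : K)‖ ≤ B) → ∀ j, |(ℓ j δ : ℝ)| ≤ C1 * B)
    {k : ℕ} (hk : 2 ≤ k) {ε : ℝ} (hε : 0 < ε) : ∃ C : ℝ, 0 < C ∧ ∀ (τ : 𝓞 K) (B : ℝ),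
      τ ≠ 0 → 1 ≤ B → ∀ s : Finset (𝓞 K),
      (∀ δ ∈ s, δ ≠ 0 ∧ OnC θ τ k δ ∧ (∀ σ : K →+* ℂ, ‖σ (δ : K)‖ ≤ B) ∧ Prim ℓ δ) →
      (s.card : ℝ) ≤ C * B * ((Algebra.norm ℤ τ).natAbs : ℝ) ^ ε := by
  classical
  obtain ⟨P0, hP0⟩ := hCLASS K θ i hθ hi
  obtain ⟨C2, hC2, hPr⟩ := hPRM ε (Module.finrank ℚ K + 1) hε
  have hi1 : 1 ≤ i := hi.1
  refine ⟨(Module.finrank ℚ K + 1) * (4 * (k : ℝ) ^ (Module.finrank ℚ K + 1)) *
    (C2 * (2 * C1 + P0 + 1) * ((i * k : ℕ) : ℝ) ^ ε), by positivity, ?_⟩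
  intro τ B hτ hB s hs
  obtain ⟨X, hX⟩ : ∃ X : ℝ, X = (2 * C1 + P0 + 1) * B := ⟨_, rfl⟩
  have hP0n : (0 : ℝ) ≤ P0 := Nat.cast_nonneg _
  have hX1 : 1 ≤ X := by rw [hX]; nlinarith
  have hXB : B ≤ X := by rw [hX]; nlinarith
  have hXP : (P0 : ℝ) ≤ X := by rw [hX]; nlinarith
  have hXC : 2 * (C1 * B) ≤ X := by rw [hX]; nlinarith
  have hτ1 : 1 ≤ (Algebra.norm ℤ τ).natAbs := Int.natAbs_pos.2 (norm_ne hτ)
  obtain ⟨P, hPc, hP⟩ := hPr X (i * k * (Algebra.norm ℤ τ).natAbs) hX1 (by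
    have : 0 < i * k := Nat.mul_pos hi1 (by omega)
    exact Nat.mul_pos this hτ1)
  have hsub : s ⊆ P.biUnion (fun p => s.filter (fun δ => ¬ (p : ℤ) ∣ Algebra.norm ℤ δ)) := by
    intro δ hδ
    obtain ⟨p, hp, h⟩ := exists_prime (hs δ hδ).1 hB (hs δ hδ).2.2.1 P hPc
      fun p hp => ⟨(hP p hp).1, hXB.trans_lt (hP p hp).2.1⟩
    exact mem_biUnion.2 ⟨p, hp, mem_filter.2 ⟨hδ, h⟩⟩
  have hone : ∀ p ∈ P, ((s.filter (fun δ => ¬ (p : ℤ) ∣ Algebra.norm ℤ δ)).card : ℝ) ≤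
      4 * (k : ℝ) ^ (Module.finrank ℚ K + 1) *
        (C2 * X * ((i * k * (Algebra.norm ℤ τ).natAbs : ℕ) : ℝ) ^ ε) := by
    intro p hp
    obtain ⟨hpp, hpX, hpC, hpM⟩ := hP p hp
    have h1 : ¬ p ∣ i := fun h => hpM (Dvd.dvd.mul_right (Dvd.dvd.mul_right h _) _)
    have h2 : ¬ p ∣ k := fun h => hpM (Dvd.dvd.mul_right (Dvd.dvd.mul_left h _) _)
    have h3 : ¬ (p : ℤ) ∣ Algebra.norm ℤ τ := fun h => hpM (Dvd.dvd.mul_left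
      (Int.natCast_dvd.1 h) _)
    have h4 : P0 < p := by
      have : (P0 : ℝ) < p := hXP.trans_lt hpX
      exact_mod_cast this
    obtain ⟨a, ha⟩ : ∃ a : ℕ, a = ⌊C1 * B⌋₊ := ⟨_, rfl⟩
    have hCB : 0 ≤ C1 * B := by positivity
    have h5 : 2 * a < p := by
      have h6 : (a : ℝ) ≤ C1 * B := ha ▸ Nat.floor_le hCB
      have : ((2 * a : ℕ) : ℝ) < p := by push_cast; linarith
      exact_mod_cast this
    have h7 := card_prime hDET hRANK hθ hi hd hℓ hτ hk hpp h1 h2 h3 h5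
      (fun s' => hP0 τ k p (by omega) hpp h4 h3 s')
      (s.filter (fun δ => ¬ (p : ℤ) ∣ Algebra.norm ℤ δ)) (fun δ hδ => by
        obtain ⟨h8, h9⟩ := mem_filter.1 hδ
        obtain ⟨k1, k2, k3, k4⟩ := hs δ h8
        refine ⟨k1, k2, k4, h9, fun j => ?_⟩
        have h10 := hco δ B (by linarith) k3 j
        have h11 : ((ℓ j δ).natAbs : ℝ) ≤ C1 * B := by
          rw [Nat.cast_natAbs, Int.cast_abs]; exact h10
        have h12 : (ℓ j δ).natAbs ≤ a := ha ▸ Nat.le_floor h11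
        rw [Int.abs_eq_natAbs]
        exact_mod_cast h12)
    calc ((s.filter (fun δ => ¬ (p : ℤ) ∣ Algebra.norm ℤ δ)).card : ℝ) ≤
        ((2 * k ^ Module.finrank ℚ K * p * (2 * k) : ℕ) : ℝ) := by exact_mod_cast h7
      _ = 4 * (k : ℝ) ^ (Module.finrank ℚ K + 1) * p := by push_cast; ring
      _ ≤ _ := by gcongr
  have h1 : (s.card : ℝ) ≤ ∑ p ∈ P, ((s.filter (fun δ => ¬ (p : ℤ) ∣
      Algebra.norm ℤ δ)).card : ℝ) := by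
    exact_mod_cast (card_le_card hsub).trans card_biUnion_le
  have h2 := sum_le_sum hone
  rw [sum_const, hPc, nsmul_eq_mul] at h2
  refine (h1.trans h2).trans (le_of_eq ?_)
  have h3 : ((i * k * (Algebra.norm ℤ τ).natAbs : ℕ) : ℝ) ^ ε =
      ((i * k : ℕ) : ℝ) ^ ε * ((Algebra.norm ℤ τ).natAbs : ℝ) ^ ε := by
    rw [Nat.cast_mul (i * k), Real.mul_rpow (Nat.cast_nonneg _) (Nat.cast_nonneg _)]
  rw [h3, hX]
  push_cast
  ring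

/-- the content -/
theorem content {ℓ : Fin (Module.finrank ℚ K) → (𝓞 K →+ ℤ)}
    (hdv : ∀ (δ : 𝓞 K) (m : ℤ), (∀ j, m ∣ ℓ j δ) → (m : 𝓞 K) ∣ δ) {δ : 𝓞 K} (hδ : δ ≠ 0) :
    ∃ (m : ℕ) (δ' : 𝓞 K), 1 ≤ m ∧ δ = (m : 𝓞 K) * δ' ∧ Prim ℓ δ' := by
  obtain ⟨g, hg⟩ : ∃ g : ℤ, g = Finset.univ.gcd fun j => ℓ j δ := ⟨_, rfl⟩
  have h1 : ∀ j, g ∣ ℓ j δ := fun j => hg ▸ Finset.gcd_dvd (mem_univ j)
  have h2 := hdv δ g h1
  have hg0 : g ≠ 0 := by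
    rintro h
    rw [h, Int.cast_zero, zero_dvd_iff] at h2
    exact hδ h2
  have h3 : ((g.natAbs : ℤ) : 𝓞 K) ∣ δ := by
    refine hdv δ _ fun j => ?_
    rw [Int.natAbs_dvd]
    exact h1 j
  obtain ⟨δ', hδ'⟩ := h3
  refine ⟨g.natAbs, δ', Int.natAbs_pos.2 hg0, by rw [hδ', Int.cast_natCast], fun m hm => ?_⟩
  have h4 : (g.natAbs : ℤ) * m ∣ g := by
    rw [hg]
    refine Finset.dvd_gcd fun j _ => ?_
    rw [← hg, hδ', l_mul]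
    exact mul_dvd_mul_left _ (hm j)
  have h5 : (g.natAbs : ℤ) * m ∣ (g.natAbs : ℤ) * 1 := by
    rw [mul_one]
    exact h4.trans (Int.dvd_natAbs.2 dvd_rfl)
  have h6 : (g.natAbs : ℤ) ≠ 0 := by
    exact_mod_cast (Int.natAbs_pos.2 hg0).ne'
  exact isUnit_of_dvd_one (Int.dvd_of_mul_dvd_mul_left h6 h5)

end

theorem t_CRV (hIDX : S_IDX) (hCO : S_COORD) (hPRM : S_PRM) (hDET : S_DET) (hRANK : S_RANK)
    (hCLASS : S_CLASS) : S_CRV := by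
  classical
  intro K _ _ θ hθ hd k ε hk hε
  obtain ⟨i, hi⟩ := hIDX K θ hθ
  obtain ⟨C1, hC1, ℓ, hco, hdv, hℓ⟩ := hCO K
  obtain ⟨C, hC, h1⟩ := step1 hDET hRANK hPRM hCLASS hθ hi hd hℓ hC1 hco hk hε
  refine ⟨C * (1 + 1 / ε), by positivity, ?_⟩
  intro τ B hτ hB s hs
  have hex : ∀ δ : 𝓞 K, ∃ (m : ℕ) (δ' : 𝓞 K), δ ∈ s → 1 ≤ m ∧ δ = (m : 𝓞 K) * δ' ∧
      Prim ℓ δ' := by
    intro δ
    by_cases h : δ ∈ s
    · obtain ⟨m, δ', h2⟩ := content hdv (hs δ h).1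
      exact ⟨m, δ', fun _ => h2⟩
    · exact ⟨0, 0, fun h' => absurd h' h⟩
  choose mm dd hmd using hex
  -- properties of the primitive parts
  have hdd : ∀ δ ∈ s, dd δ ≠ 0 ∧ OnC θ τ k (dd δ) ∧
      (∀ σ : K →+* ℂ, ‖σ (dd δ : K)‖ ≤ B / (mm δ : ℝ)) ∧ (mm δ : ℝ) ≤ B := by
    intro δ hδ
    obtain ⟨k1, k2, k3⟩ := hs δ hδ
    obtain ⟨j1, j2, -⟩ := hmd δ hδ
    have hm0 : (0 : ℝ) < mm δ := by exact_mod_cast j1
    have a1 : dd δ ≠ 0 := fun h => k1 (by rw [j2, h, mul_zero])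
    have a3 : ∀ σ : K →+* ℂ, ‖σ (dd δ : K)‖ ≤ B / (mm δ : ℝ) := by
      intro σ
      have h2 := k3 σ
      have h3 : σ (δ : K) = (mm δ : ℂ) * σ (dd δ : K) := by
        have h4 : (δ : K) = (mm δ : K) * (dd δ : K) := by
          have := congrArg (algebraMap (𝓞 K) K) j2
          rwa [map_mul, map_natCast] at this
        rw [h4, map_mul, map_natCast]
      rw [h3, norm_mul, Complex.norm_natCast] at h2
      rw [le_div_iff₀ hm0, mul_comm]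
      exact h2
    refine ⟨a1, ?_, a3, ?_⟩
    · obtain ⟨n, a, b, hn, h2⟩ := k2
      refine ⟨n * (mm δ : ℤ) ^ k, a, b, mul_ne_zero hn (pow_ne_zero _ (by
        exact_mod_cast (show mm δ ≠ 0 by omega))), ?_⟩
      rw [← h2]
      conv_rhs => rw [j2]
      push_cast
      ring
    · have h2 := norm_le a3
      have h3 : (1 : ℝ) ≤ |((Algebra.norm ℤ (dd δ) : ℤ) : ℝ)| := by
        have : 1 ≤ |Algebra.norm ℤ (dd δ)| := Int.one_le_abs (norm_ne a1)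
        exact_mod_cast this
      have h4 : 1 ≤ B / (mm δ : ℝ) := by
        by_contra hlt
        push Not at hlt
        have h5 : (B / (mm δ : ℝ)) ^ Module.finrank ℚ K < 1 :=
          pow_lt_one₀ (by positivity) hlt (by omega)
        linarith
      rwa [one_le_div hm0] at h4
  obtain ⟨T, hT⟩ : ∃ T : ℝ, T = ((Algebra.norm ℤ τ).natAbs : ℝ) ^ ε := ⟨_, rfl⟩
  have hT0 : 0 ≤ T := by rw [hT]; positivity
  have hone : ∀ n ∈ Icc 1 ⌊B⌋₊, ((s.filter (fun δ => mm δ = n)).card : ℝ) ≤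
      C * B * T * ((n : ℝ))⁻¹ := by
    intro n hn
    rw [mem_Icc] at hn
    have hn0 : (0 : ℝ) < n := by exact_mod_cast hn.1
    have hnB : (n : ℝ) ≤ B := (Nat.le_floor_iff (by linarith)).1 hn.2
    have hcard : (s.filter (fun δ => mm δ = n)).card =
        ((s.filter (fun δ => mm δ = n)).image dd).card := by
      rw [card_image_of_injOn]
      intro x hx y hy hxy
      have hx' := mem_filter.1 (mem_coe.1 hx)
      have hy' := mem_filter.1 (mem_coe.1 hy)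
      rw [(hmd x hx'.1).2.1, (hmd y hy'.1).2.1, hx'.2, hy'.2, hxy]
    rw [hcard]
    refine (h1 τ (B / n) hτ ((one_le_div hn0).2 hnB) _ fun δ hδ => ?_).trans (le_of_eq ?_)
    · obtain ⟨x, hx, rfl⟩ := mem_image.1 hδ
      obtain ⟨hx1, hx2⟩ := mem_filter.1 hx
      obtain ⟨k1, k2, k3, -⟩ := hdd x hx1
      rw [hx2] at k3
      exact ⟨k1, k2, k3, (hmd x hx1).2.2⟩
    · rw [hT]
      field_simp
  have hsub : s ⊆ (Icc 1 ⌊B⌋₊).biUnion (fun n => s.filter (fun δ => mm δ = n)) := by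
    intro δ hδ
    exact mem_biUnion.2 ⟨mm δ, mem_Icc.2 ⟨(hmd δ hδ).1, Nat.le_floor (hdd δ hδ).2.2.2⟩,
      mem_filter.2 ⟨hδ, rfl⟩⟩
  have h2 : (s.card : ℝ) ≤ ∑ n ∈ Icc 1 ⌊B⌋₊, ((s.filter (fun δ => mm δ = n)).card : ℝ) := by
    exact_mod_cast (card_le_card hsub).trans card_biUnion_le
  have h3 : (∑ n ∈ Icc 1 ⌊B⌋₊, ((n : ℝ))⁻¹) ≤ 1 + Real.log B := by
    have h4 := harmonic_floor_le_one_add_log B hB
    rw [harmonic_eq_sum_Icc] at h4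
    push_cast at h4
    exact h4
  have h5 : Real.log B ≤ B ^ ε / ε := Real.log_le_rpow_div (by linarith) hε
  have h6 : 1 ≤ B ^ ε := Real.one_le_rpow hB hε.le
  have h7 : 1 + Real.log B ≤ (1 + 1 / ε) * B ^ ε := by
    have : (1 + 1 / ε) * B ^ ε = B ^ ε + B ^ ε / ε := by ring
    linarith
  rw [Real.mul_rpow (by linarith) (Nat.cast_nonneg _), ← hT]
  calc (s.card : ℝ) ≤ _ := h2
    _ ≤ ∑ n ∈ Icc 1 ⌊B⌋₊, C * B * T * ((n : ℝ))⁻¹ := sum_le_sum hone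
    _ = C * B * T * ∑ n ∈ Icc 1 ⌊B⌋₊, ((n : ℝ))⁻¹ := by rw [mul_sum]
    _ ≤ C * B * T * ((1 + 1 / ε) * B ^ ε) := by
        refine mul_le_mul_of_nonneg_left (h3.trans h7) ?_
        have : 0 ≤ B := by linarith
        positivity
    _ = _ := by ring

end Pool.Agent.W338.QD
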